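import Pool.Agent.H71.CS.Ker

/-! From the kernel inequality to the bound for cross-Sperner systems. -/

set_option autoImplicit false

namespace Pool.Agent.H71.CS

/-- Twice the sum over i < j is the square of the sum minus the sum of the squares. -/
theorem two_pairs {k : ℕ} (x : Fin k → ℝ) :
    2 * ∑ i, ∑ j ∈ Finset.Ioi i, x i * x j = (∑ i, x i) ^ 2 - ∑ i, x i ^ 2 := by
  have h1 : ∑ i, ∑ j ∈ Finset.Ioi i, x i * x j = ∑ i, ∑ j, if i < j then x i * x j else 0 := by
    refine Finset.sum_congr rfl fun i _ => ?_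
    rw [← Finset.sum_filter]
    refine Finset.sum_congr ?_ fun _ _ => rfl
    ext j
    simp
  have h2 : ∑ i, ∑ j, (if i < j then x i * x j else 0) =
      ∑ i, ∑ j, if j < i then x i * x j else 0 := by
    rw [Finset.sum_comm]
    refine Finset.sum_congr rfl fun i _ => Finset.sum_congr rfl fun j _ => ?_
    rw [mul_comm (x j)]
  have h3 : (∑ i, x i) ^ 2 = ∑ i, ∑ j, x i * x j := by
    rw [sq, Finset.sum_mul_sum]
  have h4 : ∑ i, x i ^ 2 = ∑ i, ∑ j, if i = j then x i * x j else 0 := by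
    refine Finset.sum_congr rfl fun i _ => ?_
    rw [Finset.sum_ite_eq]
    simp [sq]
  have h5 : ∑ i, ∑ j, x i * x j = ∑ i, ∑ j, ((if i < j then x i * x j else 0) +
      (if j < i then x i * x j else 0) + (if i = j then x i * x j else 0)) := by
    refine Finset.sum_congr rfl fun i _ => Finset.sum_congr rfl fun j _ => ?_
    rcases lt_trichotomy i j with h | h | h
    · simp [h, h.ne, not_lt.2 h.le]
    · simp [h]
    · simp [h, h.ne', not_lt.2 h.le]
  rw [h1, h3, h5, h4]
  simp only [Finset.sum_add_distrib]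
  rw [← h2]
  ring

/-- AM-GM for the pairs. -/
theorem amgm_pairs {k : ℕ} (hk : 2 ≤ k) (x : Fin k → ℝ) (hx : ∀ i, 0 ≤ x i) :
    (k : ℝ) * (k - 1) * ((∏ i, x i) ^ ((1 : ℝ) / k)) ^ 2 ≤
      2 * ∑ i, ∑ j ∈ Finset.Ioi i, x i * x j := by
  classical
  have hk0 : (0 : ℝ) < k := by positivity
  have hk1 : (0 : ℝ) < (k : ℝ) - 1 := by
    have : (2 : ℝ) ≤ k := by exact_mod_cast hk
    linarith
  have hP : 0 ≤ ∏ i, x i := Finset.prod_nonneg fun i _ => hx i
  set P := ∏ i, x i with hPdef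
  -- the ordered pairs
  have hcard : ((Finset.univ : Finset (Fin k)).offDiag.card : ℝ) = k * (k - 1) := by
    rw [Finset.offDiag_card, Finset.card_univ, Fintype.card_fin, Nat.cast_sub (Nat.le_mul_self k)]
    push_cast
    ring
  have hsum : ∑ p ∈ (Finset.univ : Finset (Fin k)).offDiag, x p.1 * x p.2 =
      (∑ i, x i) ^ 2 - ∑ i, x i ^ 2 := by
    have h1 := Finset.sum_product (Finset.univ : Finset (Fin k)) (Finset.univ : Finset (Fin k))
      (fun p => x p.1 * x p.2)
    have h2 : (Finset.univ : Finset (Fin k)) ×ˢ (Finset.univ : Finset (Fin k)) =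
        (Finset.univ : Finset (Fin k)).diag ∪ (Finset.univ : Finset (Fin k)).offDiag :=
      (Finset.diag_union_offDiag _).symm
    rw [h2, Finset.sum_union (Finset.disjoint_diag_offDiag _), Finset.sum_diag] at h1
    have h3 : (∑ i, x i) ^ 2 = ∑ i, ∑ j, x i * x j := by rw [sq, Finset.sum_mul_sum]
    rw [h3, ← h1]
    simp [sq]
  have hprod1 : ∏ p ∈ (Finset.univ : Finset (Fin k)).offDiag, x p.1 = P ^ (k - 1) := by
    have h1 := Finset.prod_product (Finset.univ : Finset (Fin k)) (Finset.univ : Finset (Fin k))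
      (fun p => if p.1 = p.2 then (1 : ℝ) else x p.1)
    have h2 : ∏ p ∈ (Finset.univ : Finset (Fin k)) ×ˢ (Finset.univ : Finset (Fin k)),
        (if p.1 = p.2 then (1 : ℝ) else x p.1) =
        ∏ p ∈ (Finset.univ : Finset (Fin k)).offDiag, x p.1 := by
      rw [← Finset.diag_union_offDiag, Finset.prod_union (Finset.disjoint_diag_offDiag _)]
      have h3 : ∏ p ∈ (Finset.univ : Finset (Fin k)).diag,
          (if p.1 = p.2 then (1 : ℝ) else x p.1) = 1 :=
        Finset.prod_eq_one fun p hp => by rw [if_pos (Finset.mem_diag.1 hp).2]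
      rw [h3, one_mul]
      exact Finset.prod_congr rfl fun p hp => by rw [if_neg (Finset.mem_offDiag.1 hp).2.2]
    rw [h2] at h1
    rw [h1, hPdef, ← Finset.prod_pow]
    refine Finset.prod_congr rfl fun i _ => ?_
    rw [Finset.prod_ite, Finset.prod_const_one, one_mul]
    show ∏ _j ∈ Finset.univ.filter (fun j : Fin k => ¬ i = j), x i = _
    rw [Finset.prod_const]
    congr 1
    have : (Finset.univ.filter fun j : Fin k => ¬ i = j) = Finset.univ.erase i := by
      ext j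
      simp [eq_comm]
    rw [this, Finset.card_erase_of_mem (Finset.mem_univ i), Finset.card_univ, Fintype.card_fin]
  have hprod2 : ∏ p ∈ (Finset.univ : Finset (Fin k)).offDiag, x p.2 = P ^ (k - 1) := by
    rw [← hprod1]
    refine Finset.prod_nbij' (fun p => (p.2, p.1)) (fun p => (p.2, p.1)) ?_ ?_ ?_ ?_ ?_
    · intro p hp
      rw [Finset.mem_offDiag] at hp ⊢
      exact ⟨hp.2.1, hp.1, hp.2.2.symm⟩
    · intro p hp
      rw [Finset.mem_offDiag] at hp ⊢
      exact ⟨hp.2.1, hp.1, hp.2.2.symm⟩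
    · intro p _; rfl
    · intro p _; rfl
    · intro p _; rfl
  have hc : (0 : ℝ) < k * (k - 1) := mul_pos hk0 hk1
  have key := Real.geom_mean_le_arith_mean_weighted (Finset.univ : Finset (Fin k)).offDiag
    (fun _ => 1 / ((k : ℝ) * (k - 1))) (fun p => x p.1 * x p.2) (fun _ _ => by positivity)
    (by rw [Finset.sum_const, nsmul_eq_mul, hcard]; field_simp)
    (fun p _ => mul_nonneg (hx _) (hx _))
  have h6 : ∏ p ∈ (Finset.univ : Finset (Fin k)).offDiag,
      (x p.1 * x p.2) ^ (1 / ((k : ℝ) * (k - 1))) = (P ^ ((1 : ℝ) / k)) ^ 2 := by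
    rw [Real.finsetProd_rpow _ _ fun p _ => mul_nonneg (hx _) (hx _), Finset.prod_mul_distrib,
      hprod1, hprod2, ← pow_add, ← Real.rpow_natCast, ← Real.rpow_mul hP, ← Real.rpow_natCast,
      ← Real.rpow_mul hP]
    congr 1
    rw [Nat.cast_add, Nat.cast_sub (by omega : 1 ≤ k)]
    push_cast
    field_simp
    ring
  have h7 : ∑ p ∈ (Finset.univ : Finset (Fin k)).offDiag,
      1 / ((k : ℝ) * (k - 1)) * (x p.1 * x p.2) =
      1 / ((k : ℝ) * (k - 1)) * (2 * ∑ i, ∑ j ∈ Finset.Ioi i, x i * x j) := by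
    rw [← Finset.mul_sum, hsum, two_pairs]
  rw [h6, h7] at key
  have h8 := mul_le_mul_of_nonneg_left key hc.le
  rw [← mul_assoc, mul_one_div_cancel hc.ne', one_mul] at h8
  exact h8

/-- the conclusion for real numbers -/
theorem prod_bound {k : ℕ} (x : Fin k → ℝ) (hx : ∀ i, 0 ≤ x i) {N : ℝ}
    (h : ∑ i, x i + 2 * √(∑ i, ∑ j ∈ Finset.Ioi i, x i * x j) ≤ N) :
    ∏ i, x i ≤ (N / (k + √(2 * k * (k - 1)))) ^ k := by
  rcases Nat.eq_zero_or_pos k with hk0 | hk0
  · subst hk0
    simp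
  have hkr : (1 : ℝ) ≤ k := by exact_mod_cast hk0
  have hP : 0 ≤ ∏ i, x i := Finset.prod_nonneg fun i _ => hx i
  set G := (∏ i, x i) ^ ((1 : ℝ) / k) with hG
  have hG0 : 0 ≤ G := Real.rpow_nonneg hP _
  have hGk : G ^ k = ∏ i, x i := by
    rw [hG, ← Real.rpow_natCast, ← Real.rpow_mul hP, one_div, inv_mul_cancel₀ (by positivity),
      Real.rpow_one]
  have hkk : (0 : ℝ) ≤ k * (k - 1) := mul_nonneg (by linarith) (by linarith)
  -- arithmetic and geometric mean
  have h1 : (k : ℝ) * G ≤ ∑ i, x i := by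
    have key := Real.geom_mean_le_arith_mean_weighted (Finset.univ : Finset (Fin k))
      (fun _ => 1 / (k : ℝ)) x (fun _ _ => by positivity)
      (by rw [Finset.sum_const, Finset.card_univ, Fintype.card_fin, nsmul_eq_mul]
          field_simp) (fun i _ => hx i)
    rw [Real.finsetProd_rpow _ _ fun i _ => hx i, ← hG, ← Finset.mul_sum] at key
    have h8 := mul_le_mul_of_nonneg_left key (by linarith : (0 : ℝ) ≤ k)
    rw [← mul_assoc, mul_one_div_cancel (by linarith : (k : ℝ) ≠ 0), one_mul] at h8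
    exact h8
  have h2 : (k : ℝ) * (k - 1) * G ^ 2 ≤ 2 * ∑ i, ∑ j ∈ Finset.Ioi i, x i * x j := by
    rcases Nat.lt_or_ge k 2 with h | h
    · have hk1 : k = 1 := by omega
      have : (k : ℝ) - 1 = 0 := by rw [hk1]; norm_num
      rw [this, mul_zero, zero_mul]
      have : 0 ≤ ∑ i, ∑ j ∈ Finset.Ioi i, x i * x j :=
        Finset.sum_nonneg fun i _ => Finset.sum_nonneg fun j _ => mul_nonneg (hx i) (hx j)
      linarith
    · exact amgm_pairs h x hx
  have h3 : √(2 * k * (k - 1)) * G ≤ 2 * √(∑ i, ∑ j ∈ Finset.Ioi i, x i * x j) := by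
    have e1 : √(2 * k * (k - 1)) * G = √(2 * (k * (k - 1) * G ^ 2)) := by
      have h5 : √((2 * k * (k - 1)) * G ^ 2) = √(2 * k * (k - 1)) * √(G ^ 2) :=
        Real.sqrt_mul (by nlinarith) _
      rw [show (2 : ℝ) * (k * (k - 1) * G ^ 2) = (2 * k * (k - 1)) * G ^ 2 by ring, h5,
        Real.sqrt_sq hG0]
    have e2 : 2 * √(∑ i, ∑ j ∈ Finset.Ioi i, x i * x j) =
        √(2 * (2 * ∑ i, ∑ j ∈ Finset.Ioi i, x i * x j)) := by
      rw [show (2 : ℝ) * (2 * ∑ i, ∑ j ∈ Finset.Ioi i, x i * x j) =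
        2 ^ 2 * ∑ i, ∑ j ∈ Finset.Ioi i, x i * x j by ring, Real.sqrt_mul (by norm_num),
        Real.sqrt_sq (by norm_num)]
    rw [e1, e2]
    exact Real.sqrt_le_sqrt (by linarith)
  have hD : 0 < (k : ℝ) + √(2 * k * (k - 1)) := by
    have := Real.sqrt_nonneg (2 * (k : ℝ) * (k - 1))
    linarith
  have h4 : G ≤ N / (k + √(2 * k * (k - 1))) := by
    rw [le_div_iff₀ hD]
    linarith
  rw [← hGk]
  exact pow_le_pow_left₀ hG0 h4 k

end Pool.Agent.H71.CS
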