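import Mathlib

/-! The interpolation inequality for monotone functions on a cube and a kernel with nonpositive
mixed differences. -/

set_option autoImplicit false

namespace Pool.Agent.H71.CS

/-- independent copies against coupled copies: by induction on the number of coordinates -/
theorem kernel_ineq {α M : Type*} [DecidableEq α] [Preorder M] (r : M → M → ℤ)
    (hr : ∀ a a' b b', a ≤ a' → b ≤ b' → r a b + r a' b' ≤ r a b' + r a' b) (S : Finset α) :
    ∀ f g : Finset α → M, Monotone f → Monotone g →
      (2 : ℤ) ^ S.card * ∑ x ∈ S.powerset, r (f x) (g x) ≤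
        ∑ x ∈ S.powerset, ∑ y ∈ S.powerset, r (f x) (g y) := by
  classical
  induction S using Finset.induction_on with
  | empty => intro f g _ _; simp
  | insert a S ha ih =>
    intro f g hf hg
    have hins : Monotone (fun x : Finset α => insert a x) := fun x y h => Finset.insert_subset_insert a h
    have hf1 : Monotone (fun x => f (insert a x)) := hf.comp hins
    have hg1 : Monotone (fun x => g (insert a x)) := hg.comp hins
    have h00 := ih f g hf hg
    have h01 := ih f (fun x => g (insert a x)) hf hg1
    have h10 := ih (fun x => f (insert a x)) g hf1 hg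
    have h11 := ih (fun x => f (insert a x)) (fun x => g (insert a x)) hf1 hg1
    rw [Finset.card_insert_of_notMem ha, Finset.sum_powerset_insert ha,
      Finset.sum_powerset_insert ha]
    have hsplit : ∀ u : M, ∑ y ∈ (insert a S).powerset, r u (g y) =
        ∑ y ∈ S.powerset, r u (g y) + ∑ y ∈ S.powerset, r u (g (insert a y)) :=
      fun u => Finset.sum_powerset_insert ha _
    simp only [hsplit, Finset.sum_add_distrib]
    have hpt : ∑ x ∈ S.powerset, r (f x) (g x) + ∑ x ∈ S.powerset, r (f (insert a x)) (g (insert a x)) ≤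
        ∑ x ∈ S.powerset, r (f x) (g (insert a x)) + ∑ x ∈ S.powerset, r (f (insert a x)) (g x) := by
      rw [← Finset.sum_add_distrib, ← Finset.sum_add_distrib]
      refine Finset.sum_le_sum fun x _ => ?_
      exact hr _ _ _ _ (hf (Finset.subset_insert a x)) (hg (Finset.subset_insert a x))
    have hpos : (0 : ℤ) ≤ 2 ^ S.card := by positivity
    have h2 := mul_le_mul_of_nonneg_left hpt hpos
    rw [pow_succ]
    nlinarith [h00, h01, h10, h11, h2]

variable {k : ℕ}

/-- empty -/
def zz (a : Finset (Fin k)) : ℤ := if a = ∅ then 1 else 0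

/-- at least two elements -/
def hh (a : Finset (Fin k)) : ℤ := if 2 ≤ a.card then 1 else 0

/-- exactly i -/
def ee (i : Fin k) (a : Finset (Fin k)) : ℤ := if a = {i} then 1 else 0

/-- the kernel -/
def rr (a b : Finset (Fin k)) : ℤ :=
  zz a * hh b + hh a * zz b - (∑ i, ee i a) * (∑ i, ee i b) + ∑ i, ee i a * ee i b

private theorem tri (a : Finset (Fin k)) : a = ∅ ∨ (∃ i, a = {i}) ∨ 2 ≤ a.card := by
  rcases Nat.lt_or_ge a.card 2 with h | h
  · rcases Nat.lt_or_ge a.card 1 with h1 | h1
    · left
      exact Finset.card_eq_zero.1 (by omega)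
    · right; left
      obtain ⟨i, hi⟩ := Finset.card_eq_one.1 (by omega : a.card = 1)
      exact ⟨i, hi⟩
  · right; right; exact h

private theorem ee_empty (i : Fin k) : ee i ∅ = 0 := by
  unfold ee
  rw [if_neg]
  intro h
  exact absurd h (Finset.singleton_ne_empty i).symm

private theorem ee_single (i j : Fin k) : ee i {j} = if i = j then 1 else 0 := by
  unfold ee
  by_cases h : i = j
  · rw [if_pos h, if_pos (by rw [h])]
  · rw [if_neg h, if_neg]
    intro h1
    exact h (Finset.singleton_injective h1).symm

private theorem ee_big (i : Fin k) {a : Finset (Fin k)} (h : 2 ≤ a.card) : ee i a = 0 := by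
  unfold ee
  rw [if_neg]
  intro h1
  rw [h1, Finset.card_singleton] at h
  omega

private theorem zz_big {a : Finset (Fin k)} (h : 2 ≤ a.card) : zz a = 0 := by
  unfold zz
  rw [if_neg]
  intro h1
  rw [h1, Finset.card_empty] at h
  omega

private theorem rr_comm (a b : Finset (Fin k)) : rr a b = rr b a := by
  unfold rr
  have : ∑ i, ee i a * ee i b = ∑ i, ee i b * ee i a := Finset.sum_congr rfl fun i _ => mul_comm _ _
  rw [this]
  ring

private theorem rr_ee : rr (∅ : Finset (Fin k)) ∅ = 0 := by
  simp [rr, zz, hh, ee_empty]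

private theorem rr_es (i : Fin k) : rr ∅ {i} = 0 := by
  simp [rr, zz, hh, ee_empty]

private theorem rr_eb {b : Finset (Fin k)} (h : 2 ≤ b.card) : rr ∅ b = 1 := by
  simp [rr, zz, hh, ee_empty, h]

private theorem rr_ss (i j : Fin k) : rr {i} {j} = if i = j then 0 else -1 := by
  have h1 : ∑ l, ee l {i} = 1 := by simp [ee_single]
  have h2 : ∑ l, ee l {j} = 1 := by simp [ee_single]
  have h3 : ∑ l, ee l {i} * ee l {j} = if i = j then 1 else 0 := by
    by_cases h : i = j
    · simp [ee_single, h]
    · simp [ee_single, h, Ne.symm h]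
  unfold rr
  rw [h1, h2, h3]
  by_cases h : i = j
  · simp [h, zz, hh]
  · simp [h, zz, hh]

private theorem rr_sb (i : Fin k) {b : Finset (Fin k)} (h : 2 ≤ b.card) : rr {i} b = 0 := by
  simp [rr, zz, hh, ee_big _ h]

private theorem rr_bb {a b : Finset (Fin k)} (ha : 2 ≤ a.card) (hb : 2 ≤ b.card) : rr a b = 0 := by
  simp [rr, zz_big ha, zz_big hb, ee_big _ ha]

theorem rr_self (a : Finset (Fin k)) : rr a a = 0 := by
  rcases tri a with h | ⟨i, h⟩ | h
  · rw [h]; exact rr_ee
  · rw [h, rr_ss]; simp
  · exact rr_bb h h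

/-- the mixed differences of the kernel are nonpositive -/
theorem rr_mixed (a a' b b' : Finset (Fin k)) (ha : a ≤ a') (hb : b ≤ b') :
    rr a b + rr a' b' ≤ rr a b' + rr a' b := by
  have hse : ∀ i : Fin k, rr {i} (∅ : Finset (Fin k)) = 0 := fun i => by rw [rr_comm, rr_es]
  have hbe : ∀ c : Finset (Fin k), 2 ≤ c.card → rr c ∅ = 1 := fun c hc => by rw [rr_comm, rr_eb hc]
  have hbs : ∀ (i : Fin k) (c : Finset (Fin k)), 2 ≤ c.card → rr c {i} = 0 :=
    fun i c hc => by rw [rr_comm, rr_sb i hc]
  have hup : ∀ (i : Fin k) (c : Finset (Fin k)), {i} ≤ c → c = {i} ∨ 2 ≤ c.card := by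
    intro i c hc
    rcases tri c with h | ⟨j, h⟩ | h
    · exfalso
      rw [h] at hc
      have := hc (Finset.mem_singleton_self i)
      simp at this
    · left
      have := hc (Finset.mem_singleton_self i)
      rw [h, Finset.mem_singleton] at this
      rw [h, this]
    · exact Or.inr h
  have hss : ∀ i j : Fin k, rr {i} {j} ≤ 0 ∧ -1 ≤ rr {i} {j} := by
    intro i j
    rw [rr_ss]
    split_ifs <;> constructor <;> norm_num
  have hbig : ∀ c c' : Finset (Fin k), c ≤ c' → 2 ≤ c.card → 2 ≤ c'.card :=
    fun c c' h h2 => le_trans h2 (Finset.card_le_card h)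
  rcases tri a with h | ⟨i, h⟩ | h
  · subst h
    rcases tri b with g | ⟨j, g⟩ | g
    · subst g
      rcases tri a' with h' | ⟨i', h'⟩ | h'
      · subst h'; linarith
      · subst h'
        rcases tri b' with g' | ⟨j', g'⟩ | g'
        · subst g'; simp
        · subst g'
          rw [rr_ee, rr_es, hse]
          have := (hss i' j').1
          linarith
        · rw [rr_ee, rr_sb i' g', rr_eb g', hse]; norm_num
      · rcases tri b' with g' | ⟨j', g'⟩ | g'
        · subst g'; simp
        · subst g'
          rw [rr_ee, hbs j' a' h', rr_es, hbe a' h']; norm_num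
        · rw [rr_ee, rr_bb h' g', rr_eb g', hbe a' h']; norm_num
    · subst g
      rcases hup j b' hb with g' | g'
      · subst g'; simp
      · rcases tri a' with h' | ⟨i', h'⟩ | h'
        · subst h'; linarith
        · subst h'
          rw [rr_es, rr_sb i' g', rr_eb g']
          have := (hss i' j).2
          linarith
        · rw [rr_es, rr_bb h' g', rr_eb g', hbs j a' h']; norm_num
    · have g' := hbig b b' hb g
      rcases tri a' with h' | ⟨i', h'⟩ | h'
      · subst h'; linarith
      · subst h'
        rw [rr_eb g, rr_sb i' g', rr_eb g', rr_sb i' g]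
      · rw [rr_eb g, rr_bb h' g', rr_eb g', rr_bb h' g]
  · subst h
    rcases hup i a' ha with h' | h'
    · subst h'; linarith
    · rcases tri b with g | ⟨j, g⟩ | g
      · subst g
        rcases tri b' with g' | ⟨j', g'⟩ | g'
        · subst g'; simp
        · subst g'
          rw [hse, hbs j' a' h', hbe a' h']
          have := (hss i j').2
          linarith
        · rw [hse, rr_bb h' g', rr_sb i g', hbe a' h']; norm_num
      · subst g
        rcases hup j b' hb with g' | g'
        · subst g'; simp
        · rw [rr_bb h' g', rr_sb i g', hbs j a' h']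
          have := (hss i j).1
          linarith
      · have g' := hbig b b' hb g
        rw [rr_sb i g, rr_bb h' g', rr_sb i g', rr_bb h' g]
  · have h' := hbig a a' ha h
    rcases tri b with g | ⟨j, g⟩ | g
    · subst g
      rcases tri b' with g' | ⟨j', g'⟩ | g'
      · subst g'; simp
      · subst g'
        rw [hbe a h, hbs j' a' h', hbs j' a h, hbe a' h']; norm_num
      · rw [hbe a h, rr_bb h' g', rr_bb h g', hbe a' h']; norm_num
    · subst g
      rcases hup j b' hb with g' | g'
      · subst g'; rw [hbs j a h, hbs j a' h']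
      · rw [hbs j a h, rr_bb h' g', rr_bb h g', hbs j a' h']
    · have g' := hbig b b' hb g
      rw [rr_bb h g, rr_bb h' g', rr_bb h g', rr_bb h' g]

/-- For a monotone function s from the subsets of [n] to the subsets of [k]: with L the number of
x with s x empty, H the number of x with s x of size at least two and P i the number of x with s x = {i},
(sum P)^2 - sum P^2 <= 2 L H. -/
theorem main_ineq {n : ℕ} (s : Finset (Fin n) → Finset (Fin k)) (hs : Monotone s) :
    (∑ i : Fin k, ∑ x : Finset (Fin n), ee i (s x)) ^ 2 -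
      ∑ i : Fin k, (∑ x : Finset (Fin n), ee i (s x)) ^ 2 ≤
      2 * (∑ x : Finset (Fin n), zz (s x)) * (∑ x : Finset (Fin n), hh (s x)) := by
  classical
  have h := kernel_ineq (rr (k := k)) (fun a a' b b' => rr_mixed a a' b b')
    (Finset.univ : Finset (Fin n)) s s hs hs
  have h0 : ∑ x ∈ (Finset.univ : Finset (Fin n)).powerset, rr (s x) (s x) = 0 :=
    Finset.sum_eq_zero fun x _ => rr_self _
  rw [h0, mul_zero, Finset.powerset_univ] at h
  have h1 : ∑ x : Finset (Fin n), ∑ y : Finset (Fin n), rr (s x) (s y) =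
      2 * (∑ x : Finset (Fin n), zz (s x)) * (∑ x : Finset (Fin n), hh (s x)) -
      (∑ i : Fin k, ∑ x : Finset (Fin n), ee i (s x)) ^ 2 +
      ∑ i : Fin k, (∑ x : Finset (Fin n), ee i (s x)) ^ 2 := by
    have e1 : ∑ x : Finset (Fin n), ∑ y : Finset (Fin n), zz (s x) * hh (s y) =
        (∑ x : Finset (Fin n), zz (s x)) * ∑ y : Finset (Fin n), hh (s y) :=
      (Finset.sum_mul_sum _ _ _ _).symm
    have e2 : ∑ x : Finset (Fin n), ∑ y : Finset (Fin n), hh (s x) * zz (s y) =
        (∑ x : Finset (Fin n), hh (s x)) * ∑ y : Finset (Fin n), zz (s y) :=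
      (Finset.sum_mul_sum _ _ _ _).symm
    have e3 : ∑ x : Finset (Fin n), ∑ y : Finset (Fin n), (∑ i, ee i (s x)) * (∑ i, ee i (s y)) =
        (∑ x : Finset (Fin n), ∑ i, ee i (s x)) * ∑ y : Finset (Fin n), ∑ i, ee i (s y) :=
      (Finset.sum_mul_sum _ _ _ _).symm
    have e4 : ∑ x : Finset (Fin n), ∑ y : Finset (Fin n), ∑ i, ee i (s x) * ee i (s y) =
        ∑ i : Fin k, (∑ x : Finset (Fin n), ee i (s x)) ^ 2 := by
      have : ∀ i : Fin k, (∑ x : Finset (Fin n), ee i (s x)) ^ 2 =
          ∑ x : Finset (Fin n), ∑ y : Finset (Fin n), ee i (s x) * ee i (s y) := by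
        intro i
        rw [sq, Finset.sum_mul_sum]
      calc ∑ x : Finset (Fin n), ∑ y : Finset (Fin n), ∑ i, ee i (s x) * ee i (s y)
          = ∑ x : Finset (Fin n), ∑ i, ∑ y : Finset (Fin n), ee i (s x) * ee i (s y) :=
            Finset.sum_congr rfl fun x _ => Finset.sum_comm
        _ = ∑ i, ∑ x : Finset (Fin n), ∑ y : Finset (Fin n), ee i (s x) * ee i (s y) :=
            Finset.sum_comm
        _ = _ := Finset.sum_congr rfl fun i _ => (this i).symm
    have e5 : ∑ x : Finset (Fin n), ∑ i, ee i (s x) = ∑ i : Fin k, ∑ x : Finset (Fin n), ee i (s x) :=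
      Finset.sum_comm
    unfold rr
    simp only [Finset.sum_add_distrib, Finset.sum_sub_distrib]
    rw [e1, e2, e3, e4, e5]
    ring
  rw [h1] at h
  linarith

end Pool.Agent.H71.CS
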