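import Pool.Agent.H71.CS.Bd

/-! Cross-Sperner systems. -/

set_option autoImplicit false

namespace Pool.Agent.H71.CS

/-- The families F 1, ..., F k of subsets of [n] are cross-Sperner: no member of one of them is
comparable to a member of another one. -/
def CrossSperner {n k : ℕ} (F : Fin k → Finset (Finset (Fin n))) : Prop :=
  ∀ i j, i ≠ j → ∀ A ∈ F i, ∀ B ∈ F j, ¬ A ⊆ B ∧ ¬ B ⊆ A

/-- the indices of the families which have a member inside x -/
private def sg {n k : ℕ} (F : Fin k → Finset (Finset (Fin n))) (x : Finset (Fin n)) :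
    Finset (Fin k) := Finset.univ.filter fun i => ∃ A ∈ F i, A ⊆ x

private theorem sg_mono {n k : ℕ} (F : Fin k → Finset (Finset (Fin n))) : Monotone (sg F) := by
  intro x y hxy i hi
  unfold sg at hi ⊢
  rw [Finset.mem_filter] at hi ⊢
  obtain ⟨h1, A, hA, hAx⟩ := hi
  exact ⟨h1, A, hA, hAx.trans hxy⟩

private theorem sg_mem {n k : ℕ} {F : Fin k → Finset (Finset (Fin n))} (hF : CrossSperner F)
    {i : Fin k} {A : Finset (Fin n)} (hA : A ∈ F i) : sg F A = {i} := by
  ext j
  unfold sg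
  rw [Finset.mem_filter, Finset.mem_singleton]
  constructor
  · rintro ⟨-, B, hB, hBA⟩
    by_contra hne
    exact (hF i j (Ne.symm hne) A hA B hB).2 hBA
  · rintro rfl
    exact ⟨Finset.mem_univ _, A, hA, Finset.Subset.refl _⟩

private theorem ee_nonneg {k : ℕ} (i : Fin k) (a : Finset (Fin k)) : 0 ≤ ee i a := by
  unfold ee
  split_ifs <;> norm_num

private theorem part {k : ℕ} (a : Finset (Fin k)) : zz a + hh a + ∑ i, ee i a = 1 := by
  have hsum : ∑ i, ee i a = if a.card = 1 then 1 else 0 := by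
    by_cases h : a.card = 1
    · obtain ⟨j, hj⟩ := Finset.card_eq_one.1 h
      rw [if_pos h, hj, Finset.sum_eq_single j]
      · simp [ee]
      · intro i _ hi
        unfold ee
        rw [if_neg]
        intro h1
        exact hi (Finset.singleton_injective h1).symm
      · intro h1
        exact absurd (Finset.mem_univ j) h1
    · rw [if_neg h]
      refine Finset.sum_eq_zero fun i _ => ?_
      unfold ee
      rw [if_neg]
      intro h1
      exact h (by rw [h1, Finset.card_singleton])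
  rw [hsum]
  unfold zz hh
  rcases Nat.lt_trichotomy a.card 1 with h | h | h
  · have h0 : a = ∅ := Finset.card_eq_zero.1 (by omega)
    subst h0
    simp
  · have h0 : a ≠ ∅ := by
      intro h1
      rw [h1, Finset.card_empty] at h
      omega
    simp [h0, h]
  · have h0 : a ≠ ∅ := by
      intro h1
      rw [h1, Finset.card_empty] at h
      omega
    simp [h0, h.ne', (by omega : 2 ≤ a.card)]

/-- For a cross-Sperner system: with x i the sizes, sum x + 2 sqrt (sum_{i<j} x i x j) <= 2^n. -/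
theorem sum_bound {n k : ℕ} (F : Fin k → Finset (Finset (Fin n))) (hF : CrossSperner F) :
    ∑ i, ((F i).card : ℝ) + 2 * √(∑ i, ∑ j ∈ Finset.Ioi i, ((F i).card : ℝ) * (F j).card) ≤
      2 ^ n := by
  classical
  set L : ℤ := ∑ x : Finset (Fin n), zz (sg F x) with hL
  set H : ℤ := ∑ x : Finset (Fin n), hh (sg F x) with hH
  set P : Fin k → ℤ := fun i => ∑ x : Finset (Fin n), ee i (sg F x) with hP
  have h1 : (∑ i, P i) ^ 2 - ∑ i, P i ^ 2 ≤ 2 * L * H := main_ineq (sg F) (sg_mono F)
  have h2 : L + H + ∑ i, P i = 2 ^ n := by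
    have e1 : ∑ i, P i = ∑ x : Finset (Fin n), ∑ i, ee i (sg F x) := Finset.sum_comm
    rw [hL, hH, e1, ← Finset.sum_add_distrib, ← Finset.sum_add_distrib,
      Finset.sum_congr rfl fun x _ => part (sg F x)]
    simp
  have hL0 : 0 ≤ L := Finset.sum_nonneg fun x _ => by unfold zz; split_ifs <;> norm_num
  have hH0 : 0 ≤ H := Finset.sum_nonneg fun x _ => by unfold hh; split_ifs <;> norm_num
  have h3 : ∀ i, ((F i).card : ℤ) ≤ P i := by
    intro i
    have e1 : ((F i).card : ℤ) = ∑ x ∈ F i, ee i (sg F x) := by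
      rw [Finset.card_eq_sum_ones, Nat.cast_sum]
      refine Finset.sum_congr rfl fun x hx => ?_
      rw [sg_mem hF hx]
      simp [ee]
    rw [e1]
    exact Finset.sum_le_sum_of_subset_of_nonneg (Finset.subset_univ _) fun x _ _ => ee_nonneg _ _
  -- real numbers
  have h1r : (∑ i, (P i : ℝ)) ^ 2 - ∑ i, (P i : ℝ) ^ 2 ≤ 2 * L * H := by exact_mod_cast h1
  have h2r : (L : ℝ) + H + ∑ i, (P i : ℝ) = 2 ^ n := by exact_mod_cast h2
  have hL0r : (0 : ℝ) ≤ L := by exact_mod_cast hL0
  have hH0r : (0 : ℝ) ≤ H := by exact_mod_cast hH0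
  have h3r : ∀ i, ((F i).card : ℝ) ≤ P i := fun i => by exact_mod_cast h3 i
  have h4 : ∑ i, ∑ j ∈ Finset.Ioi i, ((F i).card : ℝ) * (F j).card ≤
      ∑ i, ∑ j ∈ Finset.Ioi i, (P i : ℝ) * P j := by
    refine Finset.sum_le_sum fun i _ => Finset.sum_le_sum fun j _ => ?_
    exact mul_le_mul (h3r i) (h3r j) (Nat.cast_nonneg _) (le_trans (Nat.cast_nonneg _) (h3r i))
  have h5 : ∑ i, ((F i).card : ℝ) ≤ ∑ i, (P i : ℝ) := Finset.sum_le_sum fun i _ => h3r i
  have h6 := two_pairs fun i => (P i : ℝ)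
  have h7 : 2 * √(∑ i, ∑ j ∈ Finset.Ioi i, ((F i).card : ℝ) * (F j).card) ≤ L + H := by
    have e1 : 2 * √(∑ i, ∑ j ∈ Finset.Ioi i, ((F i).card : ℝ) * (F j).card) ≤
        2 * √((L : ℝ) * H) := by
      refine mul_le_mul_of_nonneg_left (Real.sqrt_le_sqrt ?_) (by norm_num)
      linarith
    refine le_trans e1 ?_
    have e2 : √((L : ℝ) * H) ≤ (L + H) / 2 := by
      rw [Real.sqrt_le_left (by linarith)]
      nlinarith [sq_nonneg ((L : ℝ) - H)]
    linarith
  linarith

end Pool.Agent.H71.CS
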